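import Mathlib
import Pool.Agent.Lib.helper22.DG
import Pool.Agent.H.MP_8a4945_al.F
import Pool.Agent.H.MP_f61096_al.D

namespace Pool.Agent.Results.MP_f61096_al.No

open CategoryTheory Pool.Agent.Lib.DG Pool.Agent.H.MP_8a4945_al

theorem result (S : Type) (R : Set (List S × List S)) (w : List S) (hR : ∀ r ∈ R, r.1 ≠ [] ∧ r.2 ≠ [])
    (h1 : Group.IsFinitelyPresented (D R w)) (h2 : Group.IsSolvable (D R w)) (a b : D R w) : a * b = b * a :=
  (sys hR w).fp_solv ⟨⟨w⟩, 𝟙 _⟩ a b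

end Pool.Agent.Results.MP_f61096_al.No
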